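import Pool.Agent.Run7.h433.IntVec

/-!
# Bounds on horizontal slices `{X + i Y}`
-/

set_option autoImplicit false
set_option linter.unusedSectionVars false

open Matrix Complex Filter Asymptotics Set
open scoped Topology

namespace Run7.h433

variable {n : Type*} [Fintype n] [DecidableEq n]

/-! ### positive definite matrices plus a multiple of `E_ii` -/

omit [DecidableEq n] in
lemma quad_pos {Y : Matrix n n ℝ} (hY : Y.PosDef) {x : n → ℝ} (hx : x ≠ 0) :
    0 < x ⬝ᵥ (Y *ᵥ x) := by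
  have := hY.dotProduct_mulVec_pos hx
  simpa using this

omit [DecidableEq n] in
lemma posDef_of_quad {Y : Matrix n n ℝ} (hY : Yᵀ = Y) (h : ∀ x : n → ℝ, x ≠ 0 → 0 < x ⬝ᵥ (Y *ᵥ x)) :
    Y.PosDef := by
  refine Matrix.PosDef.of_dotProduct_mulVec_pos ?_ ?_
  · rwa [Matrix.IsHermitian, Matrix.conjTranspose_eq_transpose_of_trivial]
  · intro x hx
    simpa using h x hx

omit [DecidableEq n] in
lemma quad_nonneg {Y : Matrix n n ℝ} (hY : Y.PosSemidef) (x : n → ℝ) :
    0 ≤ x ⬝ᵥ (Y *ᵥ x) := by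
  have := hY.dotProduct_mulVec_nonneg x
  simpa using this

lemma quad_single_add (Y : Matrix n n ℝ) (i : n) (t : ℝ) (x : n → ℝ) :
    x ⬝ᵥ ((Y + Matrix.single i i t) *ᵥ x) = x ⬝ᵥ (Y *ᵥ x) + t * x i ^ 2 := by
  rw [Matrix.add_mulVec, dotProduct_add, Matrix.single_mulVec]
  congr 1
  rw [dotProduct, Finset.sum_eq_single i]
  · simp; ring
  · intro j _ hj; simp [Function.update_of_ne hj]
  · simp

lemma coord_sq_le {Y : Matrix n n ℝ} (hY : Y.PosDef) (i : n) (x : n → ℝ) :
    x i ^ 2 ≤ Y⁻¹ i i * (x ⬝ᵥ (Y *ᵥ x)) := by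
  have hu : IsUnit Y.det := (Matrix.isUnit_iff_isUnit_det _).mp hY.isUnit
  have hp : 0 < Y⁻¹ i i := hY.inv.diag_pos
  set u : n → ℝ := Y⁻¹ *ᵥ Pi.single i 1 with hudef
  have hYu : Y *ᵥ u = Pi.single i 1 := by
    rw [hudef, Matrix.mulVec_mulVec, Matrix.mul_nonsing_inv _ hu, Matrix.one_mulVec]
  have hui : u i = Y⁻¹ i i := by
    rw [hudef, Matrix.mulVec_single_one]; rfl
  set s := x i / Y⁻¹ i i with hs
  have h := quad_nonneg hY.posSemidef (x - s • u)
  have hsymm : ∀ a b : n → ℝ, a ⬝ᵥ (Y *ᵥ b) = b ⬝ᵥ (Y *ᵥ a) := by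
    intro a b
    rw [Matrix.dotProduct_mulVec, dotProduct_comm, ← Matrix.mulVec_transpose, posDef_symm hY]
  have e : (x - s • u) ⬝ᵥ (Y *ᵥ (x - s • u)) =
      x ⬝ᵥ (Y *ᵥ x) - 2 * s * x i + s ^ 2 * Y⁻¹ i i := by
    have e1 : x ⬝ᵥ (Y *ᵥ u) = x i := by rw [hYu]; simp
    have e2 : u ⬝ᵥ (Y *ᵥ u) = Y⁻¹ i i := by rw [hYu]; simp [hui]
    have e3 : u ⬝ᵥ (Y *ᵥ x) = x i := by rw [hsymm, e1]
    rw [Matrix.mulVec_sub, Matrix.mulVec_smul, sub_dotProduct, dotProduct_sub, dotProduct_sub,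
      smul_dotProduct, smul_dotProduct, dotProduct_smul, dotProduct_smul, e1, e2, e3]
    simp only [smul_eq_mul]; ring
  rw [e] at h
  have h2 : x ⬝ᵥ (Y *ᵥ x) - x i ^ 2 / Y⁻¹ i i ≥ 0 := by
    have : x ⬝ᵥ (Y *ᵥ x) - 2 * s * x i + s ^ 2 * Y⁻¹ i i =
      x ⬝ᵥ (Y *ᵥ x) - x i ^ 2 / Y⁻¹ i i := by
      rw [hs]; field_simp; ring
    linarith
  have h3 : x i ^ 2 / Y⁻¹ i i ≤ x ⬝ᵥ (Y *ᵥ x) := by linarith
  rw [div_le_iff₀ hp] at h3
  linarith

lemma posDef_add_single {Y : Matrix n n ℝ} (hY : Y.PosDef) {i : n} {t : ℝ}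
    (ht : -1 < t * Y⁻¹ i i) : (Y + Matrix.single i i t).PosDef := by
  have hp : 0 < Y⁻¹ i i := hY.inv.diag_pos
  apply posDef_of_quad
  · rw [Matrix.transpose_add, posDef_symm hY, Matrix.transpose_single]
  · intro x hx
    rw [quad_single_add]
    have h1 := coord_sq_le hY i x
    have h2 := quad_pos hY hx
    by_cases hxi : x i = 0
    · rw [hxi]; simpa using h2
    · have h3 : 0 < x i ^ 2 := by positivity
      have h4 : 0 < Y⁻¹ i i * (x ⬝ᵥ (Y *ᵥ x) + t * x i ^ 2) := by nlinarith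
      exact (pos_iff_pos_of_mul_pos h4).mp hp

lemma det_add_single (Y : Matrix n n ℝ) (hY : Y.PosDef) (i : n) (t : ℝ) :
    (Y + Matrix.single i i t).det = Y.det * (1 + t * Y⁻¹ i i) := by
  have hu : IsUnit Y.det := (Matrix.isUnit_iff_isUnit_det _).mp hY.isUnit
  have e1 : Y + Matrix.single i i t = Y.updateRow i (Y i + t • Pi.single i 1) := by
    ext a b
    by_cases ha : a = i
    · subst ha
      simp only [Matrix.add_apply, Matrix.updateRow_self, Pi.add_apply, Pi.smul_apply, smul_eq_mul]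
      by_cases hb : b = a
      · subst hb; simp
      · rw [Matrix.single_apply, Pi.single_eq_of_ne hb]
        simp [Ne.symm hb]
    · rw [Matrix.updateRow_ne ha, Matrix.add_apply, Matrix.single_apply]
      simp [Ne.symm ha]
  rw [e1, Matrix.det_updateRow_add, Matrix.updateRow_eq_self, Matrix.det_updateRow_smul,
    ← Matrix.adjugate_apply]
  rw [Matrix.inv_def, Matrix.smul_apply, Ring.inverse_eq_inv', smul_eq_mul]
  have := hu.ne_zero
  field_simp

/-! ### slice bounds -/

/-- `f` is bounded by `B` on the slice `{X + i Y}` -/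
def Bd (f : Matrix n n ℂ → ℂ) (Y : Matrix n n ℝ) (B : ℝ) : Prop :=
  ∀ X : Matrix n n ℝ, Xᵀ = X → ‖f (mk X Y)‖ ≤ B

lemma mk_add_ic (X Y : Matrix n n ℝ) (S : Matrix n n ℤ) :
    mk X Y + ic S = mk (X + S.map (Int.cast : ℤ → ℝ)) Y := by
  ext i j
  simp only [Matrix.add_apply, mk_apply, ic, Matrix.map_apply]
  push_cast; ring

theorem exists_Bd {k : ℤ} {f : Matrix n n ℂ → ℂ} (hf : IsSMF n k f) {Y : Matrix n n ℝ}
    (hY : Y.PosDef) : ∃ B, Bd f Y B := by
  set K : Set (n → n → ℝ) := {X | (∀ i j, X i j ∈ Icc (0 : ℝ) 1) ∧ ∀ i j, X i j = X j i} with hK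
  have hKc : IsCompact K := by
    have h1 : IsCompact (Set.univ.pi fun _ : n => Set.univ.pi fun _ : n => Icc (0 : ℝ) 1) :=
      isCompact_univ_pi fun _ => isCompact_univ_pi fun _ => isCompact_Icc
    refine h1.of_isClosed_subset ?_ ?_
    · have h2 : K = (⋂ i, ⋂ j, {X : n → n → ℝ | X i j ∈ Icc (0 : ℝ) 1}) ∩
          (⋂ i, ⋂ j, {X : n → n → ℝ | X i j = X j i}) := by
        ext X; simp [hK]
      rw [h2]
      refine IsClosed.inter ?_ ?_
      · refine isClosed_iInter fun i => isClosed_iInter fun j => ?_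
        exact isClosed_Icc.preimage (by fun_prop : Continuous fun X : n → n → ℝ => X i j)
      · refine isClosed_iInter fun i => isClosed_iInter fun j => ?_
        exact isClosed_eq (by fun_prop) (by fun_prop)
    · intro X hX
      simp only [Set.mem_univ_pi]
      exact fun i j => hX.1 i j
  have hcont : ContinuousOn (fun X : n → n → ℝ => f (mk (Matrix.of X) Y)) K := by
    refine hf.continuousOn_comp (u := fun X : n → n → ℝ => mk (Matrix.of X) Y) ?_ ?_
    · intro i j
      simp only [mk_apply, Matrix.of_apply]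
      fun_prop
    · intro X hX
      apply mk_mem _ hY
      ext i j
      exact (hX.2 i j).symm
  obtain ⟨B, hB⟩ := hKc.exists_bound_of_continuousOn hcont
  refine ⟨B, fun X hX => ?_⟩
  have hX' : ∀ i j, X i j = X j i := fun i j => by
    have := congrFun (congrFun hX j) i
    simpa using this
  set S : Matrix n n ℤ := Matrix.of fun i j => -⌊X i j⌋ with hS
  have hST : Sᵀ = S := by
    ext i j; simp [hS, hX' i j]
  have h1 := hf.trans hST (mk_mem hX hY)
  rw [mk_add_ic] at h1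
  rw [← h1]
  have h2 := hB (X + S.map (Int.cast : ℤ → ℝ)) ?_
  · exact h2
  · refine ⟨fun i j => ?_, fun i j => ?_⟩
    · simp only [Matrix.add_apply, Matrix.map_apply, hS, Matrix.of_apply]
      push_cast
      constructor
      · have := Int.floor_le (X i j); linarith
      · have := Int.lt_floor_add_one (X i j); linarith
    · simp only [Matrix.add_apply, Matrix.map_apply, hS, Matrix.of_apply]
      rw [hX' i j]

lemma Bd_nonneg {f : Matrix n n ℂ → ℂ} {Y : Matrix n n ℝ} {B : ℝ} (h : Bd f Y B) : 0 ≤ B :=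
  (norm_nonneg _).trans (h 0 (by simp))

lemma mk_add_single (X Y : Matrix n n ℝ) (i : n) (τ : ℂ) :
    mk X Y + Matrix.single i i τ =
      mk (X + Matrix.single i i τ.re) (Y + Matrix.single i i τ.im) := by
  ext a b
  simp only [Matrix.add_apply, mk_apply]
  rw [Matrix.single_apply, Matrix.single_apply, Matrix.single_apply]
  split_ifs
  · push_cast
    rw [mul_add]
    have := Complex.re_add_im τ
    rw [mul_comm] at this
    linear_combination -this
  · push_cast; ring

lemma transpose_add_single {X : Matrix n n ℝ} (hX : Xᵀ = X) (i : n) (t : ℝ) :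
    (X + Matrix.single i i t)ᵀ = X + Matrix.single i i t := by
  rw [Matrix.transpose_add, hX, Matrix.transpose_single]

/-- the Schwarz lemma in the direction `E_ii` -/
theorem Bd_single {k : ℤ} {f : Matrix n n ℂ → ℂ} (hf : IsSMF n k f) {m : ℝ} (hv : VanOrd m f)
    {Y : Matrix n n ℝ} (hY : Y.PosDef) {B : ℝ} (hB : Bd f Y B) (i : n) {t : ℝ} (ht : 0 ≤ t) :
    Bd f (Y + Matrix.single i i t) (B * Real.exp (-(2 * Real.pi * m * t))) := by
  intro X hX
  have hp : 0 < Y⁻¹ i i := hY.inv.diag_pos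
  set Z := mk X Y with hZdef
  have hZ : Z ∈ siegelH n := mk_mem hX hY
  set a : ℝ := -(1 / Y⁻¹ i i) with ha
  have ha0 : a < 0 := by rw [ha]; simp only [Left.neg_neg_iff]; positivity
  have hsing : ∀ τ : ℂ, Matrix.single i i τ = τ • (Matrix.single i i 1 : Matrix n n ℂ) := by
    intro τ; rw [Matrix.smul_single]; simp
  have hmem : ∀ τ : ℂ, a < τ.im → Z + Matrix.single i i τ ∈ siegelH n := by
    intro τ hτ
    rw [hZdef, mk_add_single]
    apply mk_mem (transpose_add_single hX i _)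
    apply posDef_add_single hY
    rw [ha] at hτ
    have h1 : -(1 / Y⁻¹ i i) * Y⁻¹ i i < τ.im * Y⁻¹ i i := by
      exact mul_lt_mul_of_pos_right hτ hp
    have h2 : -(1 / Y⁻¹ i i) * Y⁻¹ i i = -1 := by field_simp
    linarith
  have hd : DifferentiableOn ℂ (fun τ : ℂ => f (Z + Matrix.single i i τ)) {τ | a < τ.im} := by
    have h1 : (fun τ : ℂ => f (Z + Matrix.single i i τ)) =
        fun τ : ℂ => f (Z + τ • (Matrix.single i i 1 : Matrix n n ℂ)) := by
      funext τ; rw [hsing τ]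
    rw [h1]
    apply hf.differentiable_line hZ.1 (by rw [Matrix.transpose_single])
    intro τ hτ
    rw [← hsing τ]
    exact hmem τ hτ
  have hper : ∀ τ : ℂ, a < τ.im →
      f (Z + Matrix.single i i (τ + 1)) = f (Z + Matrix.single i i τ) := by
    intro τ hτ
    have h1 := hf.trans (S := Matrix.single i i 1) (by rw [Matrix.transpose_single]) (hmem τ hτ)
    rw [← h1]
    congr 1
    rw [Matrix.single_add, ← add_assoc]
    congr 1
    ext p q
    simp only [ic, Matrix.map_apply, Matrix.single_apply]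
    split_ifs <;> simp
  have h0 := schwarz_periodic ha0 hd hper (hv Z hZ i) (C := B) ?_ (t * I) (by simpa using ht)
  · have e1 : Z + Matrix.single i i ((t : ℂ) * I) = mk X (Y + Matrix.single i i t) := by
      rw [hZdef, mk_add_single]
      simp
    rw [e1] at h0
    simpa using h0
  · intro x
    have e1 : Z + Matrix.single i i ((x : ℂ) + ((0 : ℝ) : ℂ) * I) =
        mk (X + Matrix.single i i x) Y := by
      rw [hZdef, mk_add_single]
      simp
    rw [e1]
    exact hB _ (transpose_add_single hX i _)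

end Run7.h433
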