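import Mathlib

/-!
# Definitions: Siegel modular forms, the slope `s_g`, and periods
-/

set_option autoImplicit false

open Matrix Complex Filter Asymptotics

namespace Run7.h433.Slope

variable {g : ℕ}

/-- the Siegel upper half space of degree `g` -/
def upperHalf (g : ℕ) : Set (Matrix (Fin g) (Fin g) ℂ) :=
  {Z | Zᵀ = Z ∧ (Z.map Complex.im).PosDef}

/-- the denominator `C Z + D` of the action of the integral matrix `M = (A B; C D)` -/
def denom (M : Matrix (Fin g ⊕ Fin g) (Fin g ⊕ Fin g) ℤ) (Z : Matrix (Fin g) (Fin g) ℂ) :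
    Matrix (Fin g) (Fin g) ℂ :=
  M.toBlocks₂₁.map (Int.cast : ℤ → ℂ) * Z + M.toBlocks₂₂.map (Int.cast : ℤ → ℂ)

/-- the action `(A Z + B) (C Z + D)⁻¹` of the integral matrix `M = (A B; C D)` -/
noncomputable def act (M : Matrix (Fin g ⊕ Fin g) (Fin g ⊕ Fin g) ℤ)
    (Z : Matrix (Fin g) (Fin g) ℂ) : Matrix (Fin g) (Fin g) ℂ :=
  (M.toBlocks₁₁.map (Int.cast : ℤ → ℂ) * Z + M.toBlocks₁₂.map (Int.cast : ℤ → ℂ)) * (denom M Z)⁻¹

/-- `f` is a holomorphic function on the Siegel upper half space (in the coordinates `Z i j`,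
`{i, j}` an unordered pair) with `f ((A Z + B) (C Z + D)⁻¹) = det (C Z + D) ^ k * f Z` for all
`(A B; C D)` in `Sp(2g, ℤ)` -/
structure IsForm (g : ℕ) (k : ℤ) (f : Matrix (Fin g) (Fin g) ℂ → ℂ) : Prop where
  holo : DifferentiableOn ℂ (fun w : Sym2 (Fin g) → ℂ => f (Matrix.of fun i j => w s(i, j)))
    {w | (Matrix.of fun i j => w s(i, j)) ∈ upperHalf g}
  modular : ∀ M ∈ symplecticGroup (Fin g) ℤ, ∀ Z ∈ upperHalf g,
    f (act M Z) = (denom M Z).det ^ k * f Z

/-- `f` vanishes to order at least `m` along the boundary: for every `Z` and every `i`,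
`f (Z + τ E_ii) = O (|exp (2 π i τ)| ^ m)` as `Im τ → ∞` -/
def VanishesTo (m : ℝ) (f : Matrix (Fin g) (Fin g) ℂ → ℂ) : Prop :=
  ∀ Z ∈ upperHalf g, ∀ i : Fin g,
    (fun τ : ℂ => f (Z + Matrix.single i i τ)) =O[comap Complex.im atTop]
      fun τ => Real.exp (-(2 * Real.pi * m * τ.im))

/-- `s_g`: the infimum of the slopes `k / m` of the non-zero Siegel modular forms of degree `g`,
weight `k` and vanishing order at least `m > 0` along the boundary -/
noncomputable def minSlope (g : ℕ) : EReal :=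
  ⨅ (k : ℤ) (m : ℝ) (f : Matrix (Fin g) (Fin g) ℂ → ℂ) (_ : 0 < m) (_ : IsForm g k f)
    (_ : ∃ Z ∈ upperHalf g, f Z ≠ 0) (_ : VanishesTo m f), (((k : ℝ) / m : ℝ) : EReal)

/-- the square of the length of the period `Z c + d` of the principally polarized abelian variety
`ℂ^g / (Z ℤ^g + ℤ^g)`: it equals `v^* Y⁻¹ v` with `v = Z c + d`, `Z = X + i Y` -/
noncomputable def periodLength (Z : Matrix (Fin g) (Fin g) ℂ) (c d : Fin g → ℤ) : ℝ :=
  (star (Z *ᵥ (fun i => (c i : ℂ)) + fun i => (d i : ℂ)) ⬝ᵥ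
    (((Z.map Complex.im)⁻¹).map (Complex.ofReal) *ᵥ
      (Z *ᵥ (fun i => (c i : ℂ)) + fun i => (d i : ℂ)))).re

/-- the symplectic Hermite constant: the supremum, over all principally polarized abelian
varieties of dimension `g`, of the minimal squared length of a non-zero period -/
noncomputable def maxMinPeriod (g : ℕ) : ℝ :=
  sSup {t : ℝ | ∃ Z ∈ upperHalf g, ∀ c d : Fin g → ℤ, (c ≠ 0 ∨ d ≠ 0) → t ≤ periodLength Z c d}

end Run7.h433.Slope
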