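import Mathlib

/-!
# The Siegel upper half space and the action of the integral symplectic group
-/

set_option autoImplicit false

open Matrix Complex
open scoped ComplexOrder

namespace Run7.h433

variable {n : Type*} [Fintype n] [DecidableEq n]

/-- complexification of an integer matrix -/
def ic (A : Matrix n n ℤ) : Matrix n n ℂ := A.map (Int.cast : ℤ → ℂ)

/-- complexification of a real matrix -/
def rc (A : Matrix n n ℝ) : Matrix n n ℂ := A.map (Complex.ofReal)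

/-- imaginary part -/
def imM (Z : Matrix n n ℂ) : Matrix n n ℝ := Z.map Complex.im

/-- real part -/
def reM (Z : Matrix n n ℂ) : Matrix n n ℝ := Z.map Complex.re

/-- the Siegel upper half space -/
def siegelH (n : Type*) [Fintype n] : Set (Matrix n n ℂ) :=
  {Z | Zᵀ = Z ∧ (Z.map Complex.im).PosDef}

section ic

lemma ic_eq (A : Matrix n n ℤ) : ic A = (Int.castRingHom ℂ).mapMatrix A := rfl

lemma ic_mul (A B : Matrix n n ℤ) : ic (A * B) = ic A * ic B := by simp only [ic_eq, map_mul]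
lemma ic_add (A B : Matrix n n ℤ) : ic (A + B) = ic A + ic B := by simp only [ic_eq, map_add]
lemma ic_sub (A B : Matrix n n ℤ) : ic (A - B) = ic A - ic B := by simp only [ic_eq, map_sub]
lemma ic_one : ic (1 : Matrix n n ℤ) = 1 := by simp only [ic_eq, map_one]
lemma ic_zero : ic (0 : Matrix n n ℤ) = 0 := by simp only [ic_eq, map_zero]
omit [Fintype n] [DecidableEq n] in
lemma ic_T (A : Matrix n n ℤ) : ic Aᵀ = (ic A)ᵀ := rfl
omit [Fintype n] [DecidableEq n] in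
lemma ic_H (A : Matrix n n ℤ) : (ic A)ᴴ = (ic A)ᵀ := by
  ext i j; simp [ic, Matrix.conjTranspose_apply]

lemma rc_eq (A : Matrix n n ℝ) : rc A = (Complex.ofRealHom).mapMatrix A := rfl
lemma rc_mul (A B : Matrix n n ℝ) : rc (A * B) = rc A * rc B := by simp only [rc_eq, map_mul]
lemma rc_add (A B : Matrix n n ℝ) : rc (A + B) = rc A + rc B := by simp only [rc_eq, map_add]
lemma rc_sub (A B : Matrix n n ℝ) : rc (A - B) = rc A - rc B := by simp only [rc_eq, map_sub]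
lemma rc_one : rc (1 : Matrix n n ℝ) = 1 := by simp only [rc_eq, map_one]
omit [Fintype n] [DecidableEq n] in
lemma rc_T (A : Matrix n n ℝ) : rc Aᵀ = (rc A)ᵀ := rfl
omit [Fintype n] [DecidableEq n] in
lemma rc_H (A : Matrix n n ℝ) : (rc A)ᴴ = (rc A)ᵀ := by
  ext i j; simp [rc, Matrix.conjTranspose_apply]
lemma rc_det (A : Matrix n n ℝ) : (rc A).det = ((A.det : ℝ) : ℂ) := by
  rw [rc_eq, ← RingHom.map_det]; rfl
omit [Fintype n] [DecidableEq n] in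
lemma rc_inj {A B : Matrix n n ℝ} (h : rc A = rc B) : A = B := by
  ext i j
  have := congrFun (congrFun h i) j
  simpa [rc] using this
lemma rc_inv (A : Matrix n n ℝ) : (rc A)⁻¹ = rc A⁻¹ := by
  by_cases h : IsUnit A.det
  · apply Matrix.inv_eq_right_inv
    rw [← rc_mul, Matrix.mul_nonsing_inv _ h, rc_one]
  · have h0 : A.det = 0 := by simpa [isUnit_iff_ne_zero] using h
    have h1 : (rc A).det = 0 := by rw [rc_det, h0]; simp
    rw [Matrix.nonsing_inv_apply_not_isUnit _ h,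
      Matrix.nonsing_inv_apply_not_isUnit _ (by rw [h1]; simp)]
    simp only [rc_eq, map_zero]

end ic

open scoped MatrixOrder in
/-- factorisation of a positive semidefinite matrix -/
lemma exists_factor {Y : Matrix n n ℝ} (hY : Y.PosSemidef) : ∃ B : Matrix n n ℝ, Y = Bᵀ * B := by
  obtain ⟨B, hB⟩ := CStarAlgebra.nonneg_iff_eq_star_mul_self.mp hY.nonneg
  refine ⟨B, ?_⟩
  rw [hB, Matrix.star_eq_conjTranspose, Matrix.conjTranspose_eq_transpose_of_trivial]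

/-- a real positive definite matrix is positive definite over `ℂ` -/
lemma posDef_rc {Y : Matrix n n ℝ} (hY : Y.PosDef) : (rc Y).PosDef := by
  obtain ⟨B, hB⟩ := exists_factor hY.posSemidef
  have h1 : rc Y = (rc B)ᴴ * rc B := by
    rw [hB, rc_mul, rc_H]; rfl
  have h2 : (rc Y).PosSemidef := by
    rw [h1]; exact Matrix.posSemidef_conjTranspose_mul_self _
  rw [h2.posDef_iff_det_ne_zero, rc_det]
  exact_mod_cast hY.det_pos.ne'

omit [DecidableEq n] in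
lemma posDef_of_rc {Y : Matrix n n ℝ} (hY : (rc Y).PosDef) : Y.PosDef := by
  refine Matrix.PosDef.of_dotProduct_mulVec_pos ?_ ?_
  · have h := hY.isHermitian
    unfold Matrix.IsHermitian at h ⊢
    apply rc_inj
    rw [Matrix.conjTranspose_eq_transpose_of_trivial, rc_T, ← rc_H, h]
  · intro x hx
    have h0 : (fun i => (x i : ℂ)) ≠ 0 := by
      intro h
      apply hx
      funext i
      have := congrFun h i
      simpa using this
    have h := hY.re_dotProduct_pos h0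
    have h1 : star (fun i => (x i : ℂ)) ⬝ᵥ ((rc Y) *ᵥ (fun i => (x i : ℂ))) =
        ((star x ⬝ᵥ (Y *ᵥ x) : ℝ) : ℂ) := by
      simp [dotProduct, mulVec, rc, Finset.mul_sum]
    rw [h1] at h
    simpa using h

/-- the automorphy factor `C Z + D` -/
def aut (M : Matrix (n ⊕ n) (n ⊕ n) ℤ) (Z : Matrix n n ℂ) : Matrix n n ℂ :=
  ic M.toBlocks₂₁ * Z + ic M.toBlocks₂₂

/-- the numerator `A Z + B` -/
def num (M : Matrix (n ⊕ n) (n ⊕ n) ℤ) (Z : Matrix n n ℂ) : Matrix n n ℂ :=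
  ic M.toBlocks₁₁ * Z + ic M.toBlocks₁₂

/-- the action `(A Z + B) (C Z + D)⁻¹` -/
noncomputable def moeb (M : Matrix (n ⊕ n) (n ⊕ n) ℤ) (Z : Matrix n n ℂ) : Matrix n n ℂ :=
  num M Z * (aut M Z)⁻¹

lemma blocks_rel {M : Matrix (n ⊕ n) (n ⊕ n) ℤ} (hM : M ∈ symplecticGroup n ℤ) :
    (ic M.toBlocks₁₁)ᵀ * ic M.toBlocks₂₁ = (ic M.toBlocks₂₁)ᵀ * ic M.toBlocks₁₁ ∧
    (ic M.toBlocks₁₂)ᵀ * ic M.toBlocks₂₂ = (ic M.toBlocks₂₂)ᵀ * ic M.toBlocks₁₂ ∧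
    (ic M.toBlocks₁₁)ᵀ * ic M.toBlocks₂₂ - (ic M.toBlocks₂₁)ᵀ * ic M.toBlocks₁₂ = 1 ∧
    (ic M.toBlocks₂₂)ᵀ * ic M.toBlocks₁₁ - (ic M.toBlocks₁₂)ᵀ * ic M.toBlocks₂₁ = 1 := by
  rw [← Matrix.fromBlocks_toBlocks M, SymplecticGroup.fromBlocks_mem_iff] at hM
  obtain ⟨h1, h2, h3⟩ := hM
  refine ⟨?_, ?_, ?_, ?_⟩
  · rw [← ic_T, ← ic_T, ← ic_mul, ← ic_mul, h1]
  · rw [← ic_T, ← ic_T, ← ic_mul, ← ic_mul, h2]
  · rw [← ic_T, ← ic_T, ← ic_mul, ← ic_mul, ← ic_sub, h3, ic_one]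
  · have h4 := congrArg Matrix.transpose h3
    rw [Matrix.transpose_sub, Matrix.transpose_mul, Matrix.transpose_mul,
      Matrix.transpose_transpose, Matrix.transpose_transpose, Matrix.transpose_one] at h4
    rw [← ic_T, ← ic_T, ← ic_mul, ← ic_mul, ← ic_sub, h4, ic_one]

/-- symmetry relation -/
lemma num_aut_symm {M : Matrix (n ⊕ n) (n ⊕ n) ℤ} (hM : M ∈ symplecticGroup n ℤ)
    {Z : Matrix n n ℂ} (hZ : Zᵀ = Z) :
    (num M Z)ᵀ * aut M Z = (aut M Z)ᵀ * num M Z := by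
  obtain ⟨h1, h2, h3, h4⟩ := blocks_rel hM
  unfold num aut
  set A := ic M.toBlocks₁₁
  set B := ic M.toBlocks₁₂
  set C := ic M.toBlocks₂₁
  set D := ic M.toBlocks₂₂
  rw [Matrix.transpose_add, Matrix.transpose_mul, Matrix.transpose_add, Matrix.transpose_mul, hZ]
  have e : (Z * Aᵀ + Bᵀ) * (C * Z + D) - (Z * Cᵀ + Dᵀ) * (A * Z + B) =
      Z * (Aᵀ * C - Cᵀ * A) * Z + Z * (Aᵀ * D - Cᵀ * B) - (Dᵀ * A - Bᵀ * C) * Z +
        (Bᵀ * D - Dᵀ * B) := by noncomm_ring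
  rw [h1, h2, h3, h4] at e
  have e' : (Z * Aᵀ + Bᵀ) * (C * Z + D) - (Z * Cᵀ + Dᵀ) * (A * Z + B) = 0 := by
    rw [e]; noncomm_ring
  exact sub_eq_zero.mp e'

/-- Hermitian relation -/
lemma num_aut_herm {M : Matrix (n ⊕ n) (n ⊕ n) ℤ} (hM : M ∈ symplecticGroup n ℤ)
    (Z : Matrix n n ℂ) :
    (aut M Z)ᴴ * num M Z - (num M Z)ᴴ * aut M Z = Z - Zᴴ := by
  obtain ⟨h1, h2, h3, h4⟩ := blocks_rel hM
  unfold num aut
  set A := ic M.toBlocks₁₁ with hA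
  set B := ic M.toBlocks₁₂ with hB
  set C := ic M.toBlocks₂₁ with hC
  set D := ic M.toBlocks₂₂ with hD
  rw [Matrix.conjTranspose_add, Matrix.conjTranspose_mul, Matrix.conjTranspose_add,
    Matrix.conjTranspose_mul]
  have eA : Aᴴ = Aᵀ := ic_H _
  have eB : Bᴴ = Bᵀ := ic_H _
  have eC : Cᴴ = Cᵀ := ic_H _
  have eD : Dᴴ = Dᵀ := ic_H _
  rw [eA, eB, eC, eD]
  have e : (Zᴴ * Cᵀ + Dᵀ) * (A * Z + B) - (Zᴴ * Aᵀ + Bᵀ) * (C * Z + D) =
      -(Zᴴ * (Aᵀ * C - Cᵀ * A) * Z) - Zᴴ * (Aᵀ * D - Cᵀ * B) + (Dᵀ * A - Bᵀ * C) * Z -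
        (Bᵀ * D - Dᵀ * B) := by noncomm_ring
  rw [h1, h2, h3, h4] at e
  rw [e]; noncomm_ring

omit [Fintype n] [DecidableEq n] in
lemma sub_conjTranspose {Z : Matrix n n ℂ} (hZ : Zᵀ = Z) : Z - Zᴴ = (2 * I) • rc (imM Z) := by
  ext i j
  have h : Z j i = Z i j := congrFun (congrFun hZ i) j
  simp only [Matrix.sub_apply, Matrix.conjTranspose_apply, Matrix.smul_apply, smul_eq_mul, rc, imM,
    Matrix.map_apply]
  rw [h]
  apply Complex.ext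
  · simp
  · simp; ring

lemma isUnit_aut {M : Matrix (n ⊕ n) (n ⊕ n) ℤ} (hM : M ∈ symplecticGroup n ℤ)
    {Z : Matrix n n ℂ} (hZ : Z ∈ siegelH n) : IsUnit (aut M Z).det := by
  rw [isUnit_iff_ne_zero]
  intro h0
  obtain ⟨v, hv, hv0⟩ := Matrix.exists_mulVec_eq_zero_iff.mpr h0
  have h1 := num_aut_herm hM Z
  rw [sub_conjTranspose hZ.1] at h1
  have h2 := congrArg (fun X => star v ⬝ᵥ (X *ᵥ v)) h1
  simp only [Matrix.sub_mulVec, ← Matrix.mulVec_mulVec, hv0, Matrix.mulVec_zero, sub_zero,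
    Matrix.smul_mulVec, dotProduct_smul] at h2
  have h3 : star v ⬝ᵥ ((aut M Z)ᴴ *ᵥ (num M Z *ᵥ v)) = 0 := by
    rw [Matrix.dotProduct_mulVec, ← Matrix.star_mulVec, hv0]; simp
  rw [h3] at h2
  have h4 := (posDef_rc hZ.2).re_dotProduct_pos hv
  have h5 : star v ⬝ᵥ (rc (imM Z) *ᵥ v) = 0 := by
    have : (2 * I : ℂ) ≠ 0 := by simp
    exact (smul_eq_zero.mp h2.symm).resolve_left this
  have h6 : rc (imM Z) = rc (Z.map Complex.im) := rfl
  rw [← h6, h5] at h4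
  simp at h4

lemma moeb_symm {M : Matrix (n ⊕ n) (n ⊕ n) ℤ} (hM : M ∈ symplecticGroup n ℤ)
    {Z : Matrix n n ℂ} (hZ : Z ∈ siegelH n) : (moeb M Z)ᵀ = moeb M Z := by
  have hu := isUnit_aut hM hZ
  have hu' : IsUnit ((aut M Z)ᵀ).det := by rwa [Matrix.det_transpose]
  have h := num_aut_symm hM hZ.1
  unfold moeb
  rw [Matrix.transpose_mul, Matrix.transpose_nonsing_inv]
  calc ((aut M Z)ᵀ)⁻¹ * (num M Z)ᵀ = ((aut M Z)ᵀ)⁻¹ * ((num M Z)ᵀ * (aut M Z * (aut M Z)⁻¹)) := by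
        rw [Matrix.mul_nonsing_inv _ hu, Matrix.mul_one]
    _ = ((aut M Z)ᵀ)⁻¹ * ((num M Z)ᵀ * aut M Z) * (aut M Z)⁻¹ := by
        simp only [Matrix.mul_assoc]
    _ = ((aut M Z)ᵀ)⁻¹ * ((aut M Z)ᵀ * num M Z) * (aut M Z)⁻¹ := by rw [h]
    _ = (((aut M Z)ᵀ)⁻¹ * (aut M Z)ᵀ) * num M Z * (aut M Z)⁻¹ := by
        simp only [Matrix.mul_assoc]
    _ = num M Z * (aut M Z)⁻¹ := by rw [Matrix.nonsing_inv_mul _ hu', Matrix.one_mul]

/-- the imaginary part of `M Z` -/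
lemma rc_im_moeb {M : Matrix (n ⊕ n) (n ⊕ n) ℤ} (hM : M ∈ symplecticGroup n ℤ)
    {Z : Matrix n n ℂ} (hZ : Z ∈ siegelH n) :
    rc (imM (moeb M Z)) = ((aut M Z)⁻¹)ᴴ * rc (imM Z) * (aut M Z)⁻¹ := by
  have hu := isUnit_aut hM hZ
  have huH : IsUnit ((aut M Z)ᴴ).det := by
    rw [Matrix.det_conjTranspose]; exact hu.star
  have h1 := num_aut_herm hM Z
  rw [sub_conjTranspose hZ.1] at h1
  have h2 := sub_conjTranspose (moeb_symm hM hZ)
  have h3 : moeb M Z - (moeb M Z)ᴴ = ((aut M Z)⁻¹)ᴴ * ((2 * I) • rc (imM Z)) * (aut M Z)⁻¹ := by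
    rw [← h1]
    unfold moeb
    rw [Matrix.conjTranspose_mul, Matrix.mul_sub, Matrix.sub_mul]
    congr 1
    · rw [← Matrix.mul_assoc, Matrix.conjTranspose_nonsing_inv, Matrix.nonsing_inv_mul _ huH,
        Matrix.one_mul]
    · rw [Matrix.mul_assoc, Matrix.mul_assoc, Matrix.mul_nonsing_inv _ hu, Matrix.mul_one]
  rw [h2] at h3
  have h4 : (2 * I : ℂ) • rc (imM (moeb M Z)) =
      (2 * I : ℂ) • (((aut M Z)⁻¹)ᴴ * rc (imM Z) * (aut M Z)⁻¹) := by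
    rw [h3]; simp
  exact smul_right_injective _ (by simp : (2 * I : ℂ) ≠ 0) h4

lemma moeb_mem {M : Matrix (n ⊕ n) (n ⊕ n) ℤ} (hM : M ∈ symplecticGroup n ℤ)
    {Z : Matrix n n ℂ} (hZ : Z ∈ siegelH n) : moeb M Z ∈ siegelH n := by
  refine ⟨moeb_symm hM hZ, ?_⟩
  apply posDef_of_rc
  have h := rc_im_moeb hM hZ
  have h' : rc ((moeb M Z).map Complex.im) = ((aut M Z)⁻¹)ᴴ * rc (imM Z) * (aut M Z)⁻¹ := h
  rw [h']
  refine (posDef_rc hZ.2).conjTranspose_mul_mul_same ?_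
  have hu := isUnit_aut hM hZ
  apply Matrix.mulVec_injective_of_isUnit
  rw [Matrix.isUnit_iff_isUnit_det]
  exact Matrix.isUnit_nonsing_inv_det _ hu

/-- the inverse of the imaginary part of `M Z` -/
lemma rc_im_moeb_inv {M : Matrix (n ⊕ n) (n ⊕ n) ℤ} (hM : M ∈ symplecticGroup n ℤ)
    {Z : Matrix n n ℂ} (hZ : Z ∈ siegelH n) :
    rc (imM (moeb M Z))⁻¹ = aut M Z * rc (imM Z)⁻¹ * (aut M Z)ᴴ := by
  have hu := isUnit_aut hM hZ
  have huH : IsUnit ((aut M Z)ᴴ).det := by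
    rw [Matrix.det_conjTranspose]; exact hu.star
  have hY : IsUnit (rc (imM Z)).det := (Matrix.isUnit_iff_isUnit_det _).mp (posDef_rc hZ.2).isUnit
  rw [← rc_inv, rc_im_moeb hM hZ, ← rc_inv]
  rw [Matrix.mul_inv_rev, Matrix.mul_inv_rev, Matrix.nonsing_inv_nonsing_inv _ hu,
    Matrix.conjTranspose_nonsing_inv, Matrix.nonsing_inv_nonsing_inv _ huH, Matrix.mul_assoc]

/-- determinant of the imaginary part -/
lemma det_im_moeb {M : Matrix (n ⊕ n) (n ⊕ n) ℤ} (hM : M ∈ symplecticGroup n ℤ)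
    {Z : Matrix n n ℂ} (hZ : Z ∈ siegelH n) :
    (imM (moeb M Z)).det * ‖(aut M Z).det‖ ^ 2 = (imM Z).det := by
  have hu := isUnit_aut hM hZ
  have h := congrArg Matrix.det (rc_im_moeb hM hZ)
  rw [rc_det, Matrix.det_mul, Matrix.det_mul, rc_det, Matrix.det_conjTranspose,
    Matrix.det_nonsing_inv] at h
  have hne : (aut M Z).det ≠ 0 := hu.ne_zero
  rw [Ring.inverse_eq_inv'] at h
  have h2 : ((aut M Z).det) * star ((aut M Z).det) = ((‖(aut M Z).det‖ ^ 2 : ℝ) : ℂ) := by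
    rw [Complex.star_def, Complex.mul_conj, Complex.normSq_eq_norm_sq]
  have h3 : (((imM (moeb M Z)).det * ‖(aut M Z).det‖ ^ 2 : ℝ) : ℂ) = ((imM Z).det : ℝ) := by
    rw [Complex.ofReal_mul, ← h2, h]
    have hs : star ((aut M Z).det) ≠ 0 := by simpa using hne
    rw [star_inv₀]
    field_simp
  exact_mod_cast h3

/-- cocycle relations -/
lemma aut_mul {M₁ M₂ : Matrix (n ⊕ n) (n ⊕ n) ℤ} (h2 : M₂ ∈ symplecticGroup n ℤ)
    {Z : Matrix n n ℂ} (hZ : Z ∈ siegelH n) :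
    aut (M₁ * M₂) Z = aut M₁ (moeb M₂ Z) * aut M₂ Z ∧
      num (M₁ * M₂) Z = num M₁ (moeb M₂ Z) * aut M₂ Z := by
  have hu := isUnit_aut h2 hZ
  have hm : moeb M₂ Z * aut M₂ Z = num M₂ Z := by
    unfold moeb
    rw [Matrix.mul_assoc, Matrix.nonsing_inv_mul _ hu, Matrix.mul_one]
  have e1 : (M₁ * M₂).toBlocks₂₁ = M₁.toBlocks₂₁ * M₂.toBlocks₁₁ + M₁.toBlocks₂₂ * M₂.toBlocks₂₁ := by
    conv_lhs => rw [← Matrix.fromBlocks_toBlocks M₁, ← Matrix.fromBlocks_toBlocks M₂,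
      Matrix.fromBlocks_multiply, Matrix.toBlocks_fromBlocks₂₁]
  have e2 : (M₁ * M₂).toBlocks₂₂ = M₁.toBlocks₂₁ * M₂.toBlocks₁₂ + M₁.toBlocks₂₂ * M₂.toBlocks₂₂ := by
    conv_lhs => rw [← Matrix.fromBlocks_toBlocks M₁, ← Matrix.fromBlocks_toBlocks M₂,
      Matrix.fromBlocks_multiply, Matrix.toBlocks_fromBlocks₂₂]
  have e3 : (M₁ * M₂).toBlocks₁₁ = M₁.toBlocks₁₁ * M₂.toBlocks₁₁ + M₁.toBlocks₁₂ * M₂.toBlocks₂₁ := by
    conv_lhs => rw [← Matrix.fromBlocks_toBlocks M₁, ← Matrix.fromBlocks_toBlocks M₂,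
      Matrix.fromBlocks_multiply, Matrix.toBlocks_fromBlocks₁₁]
  have e4 : (M₁ * M₂).toBlocks₁₂ = M₁.toBlocks₁₁ * M₂.toBlocks₁₂ + M₁.toBlocks₁₂ * M₂.toBlocks₂₂ := by
    conv_lhs => rw [← Matrix.fromBlocks_toBlocks M₁, ← Matrix.fromBlocks_toBlocks M₂,
      Matrix.fromBlocks_multiply, Matrix.toBlocks_fromBlocks₁₂]
  constructor
  · unfold aut
    rw [e1, e2, Matrix.add_mul, Matrix.mul_assoc, ← aut, hm, num]
    simp only [ic_add, ic_mul]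
    unfold aut
    noncomm_ring
  · unfold num
    rw [e3, e4, Matrix.add_mul, Matrix.mul_assoc, hm, num, aut]
    simp only [ic_add, ic_mul]
    noncomm_ring

lemma moeb_mul {M₁ M₂ : Matrix (n ⊕ n) (n ⊕ n) ℤ} (h1 : M₁ ∈ symplecticGroup n ℤ)
    (h2 : M₂ ∈ symplecticGroup n ℤ)
    {Z : Matrix n n ℂ} (hZ : Z ∈ siegelH n) :
    moeb (M₁ * M₂) Z = moeb M₁ (moeb M₂ Z) := by
  have hu := isUnit_aut h2 hZ
  have hu1 := isUnit_aut h1 (moeb_mem h2 hZ)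
  obtain ⟨e1, e2⟩ := aut_mul (M₁ := M₁) h2 hZ
  rw [moeb, e1, e2, Matrix.mul_inv_rev, Matrix.mul_assoc, ← Matrix.mul_assoc (aut M₂ Z),
    Matrix.mul_nonsing_inv _ hu, Matrix.one_mul]
  rfl

end Run7.h433
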