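import Pool.Agent.Run7.h433.Basic

/-!
# Siegel modular forms and their order of vanishing along the boundary
-/

set_option autoImplicit false

open Matrix Complex Filter Asymptotics

namespace Run7.h433

variable {n : Type*} [Fintype n] [DecidableEq n]

/-- the symmetric matrix with entries `w {i, j}` -/
def symOf {n : Type*} (w : Sym2 n → ℂ) : Matrix n n ℂ := Matrix.of fun i j => w s(i, j)

/-- `f` is a holomorphic function on the Siegel upper half space which transforms like a Siegel
modular form of weight `k` for the full group `Sp(2g, ℤ)` -/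
structure IsSMF (n : Type*) [Fintype n] [DecidableEq n] (k : ℤ) (f : Matrix n n ℂ → ℂ) : Prop where
  holo : DifferentiableOn ℂ (fun w : Sym2 n → ℂ => f (symOf w)) {w | symOf w ∈ siegelH n}
  modular : ∀ M ∈ symplecticGroup n ℤ, ∀ Z ∈ siegelH n,
    f (moeb M Z) = (aut M Z).det ^ k * f Z

/-- `f` vanishes to order at least `m` along the boundary -/
def VanOrd (m : ℝ) (f : Matrix n n ℂ → ℂ) : Prop :=
  ∀ Z ∈ siegelH n, ∀ i : n, (fun τ : ℂ => f (Z + Matrix.single i i τ)) =O[comap Complex.im atTop]
    fun τ => Real.exp (-(2 * Real.pi * m * τ.im))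

end Run7.h433
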