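import Pool.Agent.Run7.h433.Form

/-!
# Integral vectors and unimodular matrices

The lemmas `exists_sl2`, `exists_gl`, `exists_sp` follow `Pool.Agent.Helper597_torsymp` of the starting tree.
-/

set_option autoImplicit false

open Matrix

namespace Run7.h433

variable {n : Type*} [Fintype n] [DecidableEq n]

/-- an invertible integer matrix moves a vector to a multiple of a basis vector -/
theorem exists_gl (s : ℕ) : ∀ g : n → ℤ, (∑ i, (g i).natAbs) ≤ s → g ≠ 0 →
    ∃ P P' : Matrix n n ℤ, P * P' = 1 ∧ P' * P = 1 ∧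
      ∃ j, ∃ γ : ℤ, γ ≠ 0 ∧ P.mulVec g = γ • (Pi.single j 1 : n → ℤ) := by
  induction s with
  | zero =>
    intro g hg hg0
    exfalso
    apply hg0
    funext i
    have h1 : ∑ i, (g i).natAbs = 0 := Nat.le_zero.1 hg
    have h2 := (Finset.sum_eq_zero_iff.1 h1) i (Finset.mem_univ i)
    exact Int.natAbs_eq_zero.1 h2
  | succ s ih =>
    intro g hg hg0
    by_cases hone : ∃ i j, i ≠ j ∧ g i ≠ 0 ∧ g j ≠ 0
    · -- two nonzero entries
      have hwlog : ∃ i j, i ≠ j ∧ g i ≠ 0 ∧ g j ≠ 0 ∧ (g j).natAbs ≤ (g i).natAbs := by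
        obtain ⟨i, j, hij, hi, hj⟩ := hone
        rcases le_total (g j).natAbs (g i).natAbs with h | h
        · exact ⟨i, j, hij, hi, hj, h⟩
        · exact ⟨j, i, hij.symm, hj, hi, h⟩
      obtain ⟨i, j, hij, hi, hj, hle⟩ := hwlog
      obtain ⟨c, hc⟩ : ∃ c : ℤ, (g i + c * g j).natAbs < (g i).natAbs := by
        rcases lt_or_gt_of_ne hi with h1 | h1
        · rcases lt_or_gt_of_ne hj with h2 | h2
          · exact ⟨-1, by omega⟩
          · exact ⟨1, by omega⟩
        · rcases lt_or_gt_of_ne hj with h2 | h2
          · exact ⟨1, by omega⟩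
          · exact ⟨-1, by omega⟩
      have hTg : ∀ (h : n → ℤ) (c : ℤ), (Matrix.transvection i j c).mulVec h =
          Function.update h i (h i + c * h j) := by
        intro h c
        funext l
        unfold Matrix.transvection
        rw [Matrix.add_mulVec, Matrix.one_mulVec, Pi.add_apply]
        by_cases hl : l = i
        · subst hl
          simp [Matrix.single_mulVec]
        · simp [Matrix.single_mulVec, hl]
      set g' : n → ℤ := Function.update g i (g i + c * g j) with hg'
      have hsum : (∑ l, (g' l).natAbs) ≤ s := by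
        have e1 : ∑ l, (g' l).natAbs < ∑ l, (g l).natAbs := by
          refine Finset.sum_lt_sum (fun l _ => ?_) ⟨i, Finset.mem_univ i, ?_⟩
          · by_cases hl : l = i
            · subst hl
              rw [hg', Function.update_self]
              exact hc.le
            · rw [hg', Function.update_of_ne hl]
          · rw [hg', Function.update_self]
            exact hc
        omega
      have hg'0 : g' ≠ 0 := by
        intro h
        have := congrFun h j
        rw [hg', Function.update_of_ne hij.symm] at this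
        exact hj this
      obtain ⟨P, P', h1, h2, k, γ, hγ, h4⟩ := ih g' hsum hg'0
      have ht1 : Matrix.transvection i j c * Matrix.transvection i j (-c) = 1 := by
        rw [Matrix.transvection_mul_transvection_same _ _ hij, add_neg_cancel,
          Matrix.transvection_zero]
      have ht2 : Matrix.transvection i j (-c) * Matrix.transvection i j c = 1 := by
        rw [Matrix.transvection_mul_transvection_same _ _ hij, neg_add_cancel,
          Matrix.transvection_zero]
      refine ⟨P * Matrix.transvection i j c, Matrix.transvection i j (-c) * P', ?_, ?_, k, γ,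
        hγ, ?_⟩
      · rw [Matrix.mul_assoc, ← Matrix.mul_assoc (Matrix.transvection i j c), ht1, Matrix.one_mul, h1]
      · rw [Matrix.mul_assoc, ← Matrix.mul_assoc P', h2, Matrix.one_mul, ht2]
      · rw [← Matrix.mulVec_mulVec, hTg, ← hg', h4]
    · -- one nonzero entry
      push Not at hone
      have hex : ∃ j, g j ≠ 0 := by
        by_contra hcon
        push Not at hcon
        exact hg0 (funext hcon)
      obtain ⟨j, hj⟩ := hex
      refine ⟨1, 1, by simp, by simp, j, g j, hj, ?_⟩
      rw [Matrix.one_mulVec]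
      funext l
      by_cases hl : l = j
      · subst hl; simp
      · have : g l = 0 := by
          by_contra h
          exact hj (hone l j hl h)
        simp [hl, this]

theorem exists_sl2 (a b : ℤ) : ∃ s t u v : ℤ, s * v - t * u = 1 ∧ s * a + t * b = 0 ∧
    (a ≠ 0 ∨ b ≠ 0 → u * a + v * b ≠ 0) := by
  by_cases h : a = 0 ∧ b = 0
  · refine ⟨1, 0, 0, 1, by ring, by rw [h.1]; ring, ?_⟩
    intro h'
    rcases h' with h' | h'
    · exact absurd h.1 h'
    · exact absurd h.2 h'
  · have hg : Int.gcd a b ≠ 0 := by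
      intro hcon
      rw [Int.gcd_eq_zero_iff] at hcon
      exact h hcon
    have hg' : (Int.gcd a b : ℤ) ≠ 0 := by exact_mod_cast hg
    obtain ⟨a', ha⟩ := Int.gcd_dvd_left a b
    obtain ⟨b', hb⟩ := Int.gcd_dvd_right a b
    have hbez := Int.gcd_eq_gcd_ab a b
    set d : ℤ := (Int.gcd a b : ℤ) with hd
    set x := Int.gcdA a b
    set y := Int.gcdB a b
    have h1 : a' * x + b' * y = 1 := by
      have : d * (a' * x + b' * y) = d * 1 := by
        rw [mul_one]
        calc d * (a' * x + b' * y) = (d * a') * x + (d * b') * y := by ring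
          _ = a * x + b * y := by rw [← ha, ← hb]
          _ = d := hbez.symm
      exact mul_left_cancel₀ hg' this
    refine ⟨b', -a', x, y, by linear_combination h1, ?_, ?_⟩
    · rw [ha, hb]; ring
    · intro _
      have : x * a + y * b = d := by rw [hbez]; ring
      rw [this]; exact hg'

theorem mem_block' {P P' : Matrix n n ℤ} (h : P' * P = 1) :
    Matrix.fromBlocks P'.transpose 0 0 P ∈ Matrix.symplecticGroup n ℤ := by
  rw [SymplecticGroup.fromBlocks_mem_iff]
  refine ⟨by simp, by simp, ?_⟩
  simp [h]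

theorem mem_diag (s t u v : n → ℤ) (h : ∀ i, s i * v i - t i * u i = 1) :
    Matrix.fromBlocks (Matrix.diagonal s) (Matrix.diagonal t) (Matrix.diagonal u)
      (Matrix.diagonal v) ∈ Matrix.symplecticGroup n ℤ := by
  rw [SymplecticGroup.fromBlocks_mem_iff]
  simp only [Matrix.diagonal_transpose, Matrix.diagonal_mul_diagonal]
  refine ⟨by congr 1; funext i; ring, by congr 1; funext i; ring, ?_⟩
  rw [Matrix.diagonal_sub, ← Matrix.diagonal_one]
  congr 1
  funext i
  have := h i
  linear_combination this

/-- an integral symplectic matrix moves a vector to a multiple of some basis vector -/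
theorem exists_sp {w : n ⊕ n → ℤ} (hw : w ≠ 0) :
    ∃ N ∈ Matrix.symplecticGroup n ℤ, ∃ j, ∃ γ : ℤ, γ ≠ 0 ∧
        N.mulVec w = γ • (Pi.single (Sum.inr j) 1 : n ⊕ n → ℤ) := by
  have hch : ∀ i : n, ∃ s t u v : ℤ, s * v - t * u = 1 ∧
      s * w (Sum.inl i) + t * w (Sum.inr i) = 0 ∧
      (w (Sum.inl i) ≠ 0 ∨ w (Sum.inr i) ≠ 0 → u * w (Sum.inl i) + v * w (Sum.inr i) ≠ 0) := by
    intro i
    obtain ⟨s, t, u, v, h1, h2, h3⟩ := exists_sl2 (w (Sum.inl i)) (w (Sum.inr i))
    exact ⟨s, t, u, v, h1, h2, h3⟩
  choose s t u v h1 h2 h3 using hch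
  set y : n → ℤ := fun i => u i * w (Sum.inl i) + v i * w (Sum.inr i) with hy
  have e1 : (Matrix.fromBlocks (Matrix.diagonal s) (Matrix.diagonal t) (Matrix.diagonal u)
      (Matrix.diagonal v)).mulVec w = Sum.elim (0 : n → ℤ) y := by
    rw [Matrix.fromBlocks_mulVec]
    congr 1
    · funext i
      simp only [Pi.add_apply, Matrix.mulVec_diagonal, Function.comp_apply]
      exact h2 i
    · funext i
      simp only [Pi.add_apply, Matrix.mulVec_diagonal, Function.comp_apply, hy]
  have hy0 : y ≠ 0 := by
    intro hcon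
    apply hw
    have hwi : ∀ i, w (Sum.inl i) = 0 ∧ w (Sum.inr i) = 0 := by
      intro i
      by_contra hi
      have hi' : w (Sum.inl i) ≠ 0 ∨ w (Sum.inr i) ≠ 0 := by
        by_contra h'
        push Not at h'
        exact hi h'
      exact h3 i hi' (congrFun hcon i)
    funext α
    rcases α with i | i
    · exact (hwi i).1
    · exact (hwi i).2
  obtain ⟨P, P', hP1, hP2, j, γ, hγ, hP4⟩ := exists_gl _ y le_rfl hy0
  refine ⟨_, Submonoid.mul_mem _ (mem_block' hP2) (mem_diag s t u v h1), j, γ, hγ, ?_⟩
  rw [← Matrix.mulVec_mulVec, e1, Matrix.fromBlocks_mulVec]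
  have e3 : (Sum.elim (0 : n → ℤ) y) ∘ Sum.inl = 0 := rfl
  have e4 : (Sum.elim (0 : n → ℤ) y) ∘ Sum.inr = y := rfl
  rw [e3, e4, hP4]
  funext α
  rcases α with l | l
  · simp
  · by_cases hl : l = j
    · subst hl; simp
    · simp [hl]

end Run7.h433
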