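import Mathlib

/-!
# A Schwarz lemma for periodic functions on a half plane
-/

set_option autoImplicit false

open Complex Filter Asymptotics Set
open scoped Topology

namespace Run7.h433

/-- periodicity under integers -/
lemma periodic_int {a : ℝ} {φ : ℂ → ℂ} (hper : ∀ τ : ℂ, a < τ.im → φ (τ + 1) = φ τ)
    (j : ℤ) : ∀ τ : ℂ, a < τ.im → φ (τ + j) = φ τ := by
  induction j using Int.induction_on with
  | zero => intro τ _; simp
  | succ i ih =>
    intro τ hτ
    have : τ + ((i : ℤ) + 1 : ℤ) = (τ + (i : ℤ)) + 1 := by push_cast; ring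
    rw [this, hper _ (by simpa using hτ), ih τ hτ]
  | pred i ih =>
    intro τ hτ
    have h1 := hper (τ + ((-(i : ℤ) - 1 : ℤ) : ℂ)) (by simpa using hτ)
    have : τ + ((-(i : ℤ) - 1 : ℤ) : ℂ) + 1 = τ + ((-(i : ℤ) : ℤ) : ℂ) := by push_cast; ring
    rw [this, ih τ hτ] at h1
    exact h1.symm

theorem schwarz_periodic {a b m C : ℝ} {φ : ℂ → ℂ} (hab : a < b)
    (hd : DifferentiableOn ℂ φ {τ | a < τ.im})
    (hper : ∀ τ : ℂ, a < τ.im → φ (τ + 1) = φ τ)
    (hO : φ =O[comap Complex.im atTop] fun τ => Real.exp (-(2 * Real.pi * m * τ.im)))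
    (hC : ∀ x : ℝ, ‖φ (x + b * I)‖ ≤ C) :
    ∀ τ : ℂ, b ≤ τ.im → ‖φ τ‖ ≤ C * Real.exp (-(2 * Real.pi * m * (τ.im - b))) := by
  -- the auxiliary function
  set ψ : ℂ → ℂ := fun ζ => φ (b * I + I * ζ) * Complex.exp (2 * Real.pi * m * ζ) with hψ
  have him : ∀ ζ : ℂ, ((b : ℂ) * I + I * ζ).im = b + ζ.re := by
    intro ζ; simp
  have hopen : IsOpen {τ : ℂ | a < τ.im} := isOpen_lt continuous_const Complex.continuous_im
  have hdψ : DifferentiableOn ℂ ψ {ζ | a - b < ζ.re} := by
    apply DifferentiableOn.mul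
    · apply hd.comp (by fun_prop)
      intro ζ hζ
      simp only [Set.mem_ofPred_eq] at hζ ⊢
      rw [him]; linarith
    · fun_prop
  have hnorm : ∀ ζ : ℂ, ‖ψ ζ‖ = ‖φ (b * I + I * ζ)‖ * Real.exp (2 * Real.pi * m * ζ.re) := by
    intro ζ
    simp only [hψ, norm_mul, Complex.norm_exp]
    congr 2
    have : (2 * (Real.pi : ℂ) * m * ζ) = ((2 * Real.pi * m : ℝ) : ℂ) * ζ := by push_cast; ring
    rw [this, Complex.re_ofReal_mul]
  -- boundedness
  obtain ⟨B₁, hB₁⟩ := hO.bound
  rw [eventually_comap] at hB₁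
  obtain ⟨T, hT⟩ := (eventually_atTop.mp hB₁)
  have hB₁' : ∀ τ : ℂ, T ≤ τ.im → ‖φ τ‖ ≤ B₁ * Real.exp (-(2 * Real.pi * m * τ.im)) := by
    intro τ hτ
    have := hT τ.im hτ τ rfl
    rwa [Real.norm_of_nonneg (Real.exp_pos _).le] at this
  have hcomp : ∃ B₂ : ℝ, ∀ τ : ℂ, b ≤ τ.im → τ.im ≤ T → ‖φ τ‖ ≤ B₂ := by
    have hK : IsCompact ((Icc (0 : ℝ) 1) ×ℂ (Icc b T)) := isCompact_Icc.reProdIm isCompact_Icc
    have hcont : ContinuousOn φ ((Icc (0 : ℝ) 1) ×ℂ (Icc b T)) := by
      apply hd.continuousOn.mono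
      intro τ hτ
      rw [Complex.mem_reProdIm] at hτ
      exact lt_of_lt_of_le hab hτ.2.1
    obtain ⟨B₂, hB₂⟩ := hK.exists_bound_of_continuousOn hcont
    refine ⟨B₂, fun τ h1 h2 => ?_⟩
    have h3 := periodic_int hper (-⌊τ.re⌋) τ (lt_of_lt_of_le hab h1)
    rw [← h3]
    apply hB₂
    rw [Complex.mem_reProdIm]
    constructor
    · simp only [Complex.add_re, Complex.intCast_re]
      push_cast
      constructor
      · have := Int.floor_le τ.re; linarith
      · have := Int.lt_floor_add_one τ.re; linarith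
    · simp only [Complex.add_im, Complex.intCast_im, add_zero]
      exact ⟨h1, h2⟩
  obtain ⟨B₂, hB₂⟩ := hcomp
  have hbdd : ∃ B : ℝ, ∀ ζ : ℂ, 0 ≤ ζ.re → ‖ψ ζ‖ ≤ B := by
    refine ⟨max (B₁ * Real.exp (-(2 * Real.pi * m * b)))
      (|B₂| * Real.exp (2 * Real.pi * |m| * |T - b|)), fun ζ hζ => ?_⟩
    rw [hnorm]
    rcases le_total T (b + ζ.re) with h | h
    · refine le_max_of_le_left ?_
      have h1 := hB₁' (b * I + I * ζ) (by rw [him]; exact h)
      rw [him] at h1
      calc ‖φ (b * I + I * ζ)‖ * Real.exp (2 * Real.pi * m * ζ.re)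
          ≤ (B₁ * Real.exp (-(2 * Real.pi * m * (b + ζ.re)))) *
            Real.exp (2 * Real.pi * m * ζ.re) := by gcongr
        _ = B₁ * Real.exp (-(2 * Real.pi * m * b)) := by
            rw [mul_assoc, ← Real.exp_add]; congr 2; ring
    · refine le_max_of_le_right ?_
      have h1 := hB₂ (b * I + I * ζ) (by rw [him]; linarith) (by rw [him]; exact h)
      have h2 : ‖φ (b * I + I * ζ)‖ ≤ |B₂| := h1.trans (le_abs_self _)
      have h3 : 2 * Real.pi * m * ζ.re ≤ 2 * Real.pi * |m| * |T - b| := by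
        have e1 : ζ.re ≤ |T - b| := by
          have := le_abs_self (T - b); linarith
        have e2 : m * ζ.re ≤ |m| * |T - b| := by
          calc m * ζ.re ≤ |m| * ζ.re := by gcongr; exact le_abs_self m
            _ ≤ |m| * |T - b| := by gcongr
        have := Real.pi_pos
        nlinarith
      exact mul_le_mul h2 (Real.exp_le_exp.mpr h3) (Real.exp_pos _).le (abs_nonneg _)
  obtain ⟨B, hB⟩ := hbdd
  have key : ∀ ζ : ℂ, 0 ≤ ζ.re → ‖ψ ζ‖ ≤ C := by
    intro ζ hζ
    refine PhragmenLindelof.right_half_plane_of_bounded_on_real (f := ψ) ?_ ?_ ?_ ?_ hζ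
    · apply DifferentiableOn.diffContOnCl
      apply hdψ.mono
      rw [Complex.closure_setOfPred_lt_re]
      intro z hz
      simp only [Set.mem_ofPred_eq] at hz ⊢
      linarith
    · refine ⟨1, by norm_num, 0, ?_⟩
      refine IsBigO.of_bound B ?_
      rw [Filter.eventually_inf_principal]
      refine Filter.Eventually.of_forall fun z hz => ?_
      simp only [zero_mul, Real.exp_zero, norm_one, mul_one]
      exact hB z (le_of_lt hz)
    · refine ⟨B, ?_⟩
      rw [eventually_map]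
      filter_upwards [eventually_ge_atTop (0 : ℝ)] with x hx
      exact hB x (by simpa using hx)
    · intro x
      rw [hnorm]
      have h1 := hC (-x)
      have h2 : (b : ℂ) * I + I * ((x : ℂ) * I) = ((-x : ℝ) : ℂ) + b * I := by
        have : I * ((x : ℂ) * I) = x * (I * I) := by ring
        rw [this, Complex.I_mul_I]; push_cast; ring
      rw [h2]
      simpa using h1
  intro τ hτ
  have h1 := key (-I * (τ - b * I)) (by simp; linarith)
  rw [hnorm] at h1
  have h2 : (b : ℂ) * I + I * (-I * (τ - b * I)) = τ := by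
    have : I * (-I * (τ - b * I)) = -(I * I) * (τ - b * I) := by ring
    rw [this, Complex.I_mul_I]; ring
  have h3 : (-I * (τ - b * I)).re = τ.im - b := by simp
  rw [h2, h3] at h1
  calc ‖φ τ‖ = ‖φ τ‖ * Real.exp (2 * Real.pi * m * (τ.im - b)) *
        Real.exp (-(2 * Real.pi * m * (τ.im - b))) := by
        rw [mul_assoc, ← Real.exp_add]; simp
    _ ≤ C * Real.exp (-(2 * Real.pi * m * (τ.im - b))) := by gcongr

end Run7.h433
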