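import Pool.Agent.Run7.h433.Defs
import Pool.Agent.Run7.h433.Schwarz

/-!
# Elementary properties of Siegel modular forms
-/

set_option autoImplicit false

open Matrix Complex Filter Asymptotics Set
open scoped Topology

namespace Run7.h433

variable {n : Type*} [Fintype n] [DecidableEq n]

/-- the point `X + i Y` -/
def mk (X Y : Matrix n n ℝ) : Matrix n n ℂ := rc X + I • rc Y

omit [Fintype n] [DecidableEq n] in
lemma mk_apply (X Y : Matrix n n ℝ) (i j : n) : mk X Y i j = X i j + I * Y i j := rfl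

omit [Fintype n] [DecidableEq n] in
lemma imM_mk (X Y : Matrix n n ℝ) : imM (mk X Y) = Y := by
  ext i j; simp [imM, mk, rc]

omit [Fintype n] [DecidableEq n] in
lemma reM_mk (X Y : Matrix n n ℝ) : reM (mk X Y) = X := by
  ext i j; simp [reM, mk, rc]

omit [Fintype n] [DecidableEq n] in
lemma mk_re_im (Z : Matrix n n ℂ) : mk (reM Z) (imM Z) = Z := by
  ext i j
  simp only [mk_apply, reM, imM, Matrix.map_apply]
  rw [mul_comm]; exact Complex.re_add_im _

omit [DecidableEq n] in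
lemma mk_mem {X Y : Matrix n n ℝ} (hX : Xᵀ = X) (hY : Y.PosDef) : mk X Y ∈ siegelH n := by
  refine ⟨?_, ?_⟩
  · have hY' : Yᵀ = Y := by
      have := hY.isHermitian
      rwa [Matrix.IsHermitian, Matrix.conjTranspose_eq_transpose_of_trivial] at this
    ext i j
    have h1 := congrFun (congrFun hX i) j
    have h2 := congrFun (congrFun hY' i) j
    simp only [Matrix.transpose_apply] at h1 h2
    simp only [Matrix.transpose_apply, mk_apply, h1, h2]
  · have : (mk X Y).map Complex.im = Y := imM_mk X Y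
    rw [this]; exact hY

omit [DecidableEq n] in
lemma re_symm {Z : Matrix n n ℂ} (hZ : Z ∈ siegelH n) : (reM Z)ᵀ = reM Z := by
  ext i j
  have := congrFun (congrFun hZ.1 i) j
  simp only [Matrix.transpose_apply] at this
  simp only [Matrix.transpose_apply, reM, Matrix.map_apply, this]

omit [Fintype n] [DecidableEq n] in
lemma posDef_symm {Y : Matrix n n ℝ} (hY : Y.PosDef) : Yᵀ = Y := by
  have := hY.isHermitian
  rwa [Matrix.IsHermitian, Matrix.conjTranspose_eq_transpose_of_trivial] at this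

/-! ### coordinates -/

/-- the coordinates of a symmetric matrix -/
noncomputable def symPar (Z : Matrix n n ℂ) : Sym2 n → ℂ :=
  Sym2.lift ⟨fun i j => (Z i j + Z j i) / 2, fun i j => by ring⟩

omit [Fintype n] [DecidableEq n] in
lemma symPar_mk (Z : Matrix n n ℂ) (i j : n) : symPar Z s(i, j) = (Z i j + Z j i) / 2 := rfl

omit [Fintype n] [DecidableEq n] in
lemma symOf_symPar {Z : Matrix n n ℂ} (hZ : Zᵀ = Z) : symOf (symPar Z) = Z := by
  ext i j
  have := congrFun (congrFun hZ i) j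
  simp only [Matrix.transpose_apply] at this
  simp only [symOf, Matrix.of_apply, symPar_mk, this]
  ring

/-- holomorphic on a complex line -/
lemma IsSMF.differentiable_line {k : ℤ} {f : Matrix n n ℂ → ℂ} (hf : IsSMF n k f)
    {Z E : Matrix n n ℂ} (hZ : Zᵀ = Z) (hE : Eᵀ = E) {S : Set ℂ}
    (hS : ∀ τ ∈ S, Z + τ • E ∈ siegelH n) :
    DifferentiableOn ℂ (fun τ : ℂ => f (Z + τ • E)) S := by
  have h1 : ∀ τ : ℂ, symOf (symPar Z + τ • symPar E) = Z + τ • E := by
    intro τ
    have e1 : symOf (symPar Z + τ • symPar E) = symOf (symPar Z) + τ • symOf (symPar E) := rfl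
    rw [e1, symOf_symPar hZ, symOf_symPar hE]
  have h2 : (fun τ : ℂ => f (Z + τ • E)) =
      (fun w : Sym2 n → ℂ => f (symOf w)) ∘ (fun τ : ℂ => symPar Z + τ • symPar E) := by
    funext τ; simp only [Function.comp_apply, h1]
  rw [h2]
  apply hf.holo.comp (by fun_prop)
  intro τ hτ
  simp only [Set.mem_ofPred_eq, h1]
  exact hS τ hτ

/-- continuity along a continuous family -/
lemma IsSMF.continuousOn_comp {k : ℤ} {f : Matrix n n ℂ → ℂ} (hf : IsSMF n k f)
    {α : Type*} [TopologicalSpace α] {u : α → Matrix n n ℂ} {S : Set α}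
    (hu : ∀ i j, ContinuousOn (fun a => u a i j) S)
    (hS : ∀ a ∈ S, u a ∈ siegelH n) : ContinuousOn (fun a => f (u a)) S := by
  have h1 : ∀ a ∈ S, f (u a) = (fun w : Sym2 n → ℂ => f (symOf w)) (symPar (u a)) := by
    intro a ha
    simp only [symOf_symPar (hS a ha).1]
  refine ContinuousOn.congr ?_ h1
  refine hf.holo.continuousOn.comp ?_ ?_
  · rw [continuousOn_pi]
    intro s
    induction s using Sym2.ind with
    | _ i j =>
      simp only [symPar_mk]
      exact ((hu i j).add (hu j i)).div_const 2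
  · intro a ha
    simp only [Set.mem_ofPred_eq, symOf_symPar (hS a ha).1]
    exact hS a ha

/-! ### special elements of the symplectic group -/

lemma trans_mem {S : Matrix n n ℤ} (hS : Sᵀ = S) :
    Matrix.fromBlocks 1 S 0 1 ∈ symplecticGroup n ℤ := by
  rw [SymplecticGroup.fromBlocks_mem_iff]
  refine ⟨by simp, by simp [hS], by simp⟩

lemma IsSMF.trans {k : ℤ} {f : Matrix n n ℂ → ℂ} (hf : IsSMF n k f) {S : Matrix n n ℤ}
    (hS : Sᵀ = S) {Z : Matrix n n ℂ} (hZ : Z ∈ siegelH n) : f (Z + ic S) = f Z := by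
  have h := hf.modular _ (trans_mem hS) Z hZ
  have e1 : aut (Matrix.fromBlocks 1 S 0 1) Z = 1 := by
    unfold aut; simp [ic_zero, ic_one]
  have e2 : moeb (Matrix.fromBlocks 1 S 0 1) Z = Z + ic S := by
    unfold moeb; rw [e1]; unfold num; simp [ic_one]
  rw [e1, e2] at h
  simpa using h

lemma block_mem {P P' : Matrix n n ℤ} (h : P' * P = 1) :
    Matrix.fromBlocks P 0 0 P'ᵀ ∈ symplecticGroup n ℤ := by
  have h' : P * P' = 1 := mul_eq_one_comm.mp h
  rw [SymplecticGroup.fromBlocks_mem_iff]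
  refine ⟨by simp, by simp, ?_⟩
  rw [Matrix.transpose_zero, Matrix.zero_mul, sub_zero, ← Matrix.transpose_mul, h,
    Matrix.transpose_one]

lemma aut_block (P P' : Matrix n n ℤ) (Z : Matrix n n ℂ) :
    aut (Matrix.fromBlocks P 0 0 P'ᵀ) Z = (ic P')ᵀ := by
  unfold aut; simp [ic_zero, ic_T]

lemma moeb_block {P P' : Matrix n n ℤ} (h : P' * P = 1) (Z : Matrix n n ℂ) :
    moeb (Matrix.fromBlocks P 0 0 P'ᵀ) Z = ic P * Z * (ic P)ᵀ := by
  have h' : P * P' = 1 := mul_eq_one_comm.mp h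
  unfold moeb
  rw [aut_block]
  have e1 : ((ic P')ᵀ)⁻¹ = (ic P)ᵀ := by
    apply Matrix.inv_eq_right_inv
    rw [← Matrix.transpose_mul, ← ic_mul, h', ic_one, Matrix.transpose_one]
  rw [e1]
  unfold num
  simp [ic_zero]

lemma norm_det_ic {P P' : Matrix n n ℤ} (h : P' * P = 1) : ‖((ic P')ᵀ).det‖ = 1 := by
  have h1 : P'.det * P.det = 1 := by rw [← Matrix.det_mul, h, Matrix.det_one]
  have h2 : IsUnit P'.det := IsUnit.of_mul_eq_one _ h1
  rw [Matrix.det_transpose]
  have h3 : (ic P').det = ((P'.det : ℤ) : ℂ) := by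
    rw [ic_eq, ← RingHom.map_det]; rfl
  rw [h3]
  rcases Int.isUnit_iff.mp h2 with h4 | h4 <;> rw [h4] <;> simp

lemma IsSMF.norm_block {k : ℤ} {f : Matrix n n ℂ → ℂ} (hf : IsSMF n k f) {P P' : Matrix n n ℤ}
    (h : P' * P = 1) {Z : Matrix n n ℂ} (hZ : Z ∈ siegelH n) :
    ‖f (ic P * Z * (ic P)ᵀ)‖ = ‖f Z‖ := by
  have h1 := hf.modular _ (block_mem h) Z hZ
  rw [moeb_block h, aut_block] at h1
  rw [h1, norm_mul, norm_zpow, norm_det_ic h]
  simp

/-! ### invariant norm -/

/-- the invariant norm -/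
noncomputable def hn (k : ℤ) (f : Matrix n n ℂ → ℂ) (Z : Matrix n n ℂ) : ℝ :=
  ‖f Z‖ * (imM Z).det ^ ((k : ℝ) / 2)

lemma IsSMF.hn_moeb {k : ℤ} {f : Matrix n n ℂ → ℂ} (hf : IsSMF n k f)
    {M : Matrix (n ⊕ n) (n ⊕ n) ℤ} (hM : M ∈ symplecticGroup n ℤ) {Z : Matrix n n ℂ}
    (hZ : Z ∈ siegelH n) : hn k f (moeb M Z) = hn k f Z := by
  unfold hn
  have h1 := hf.modular M hM Z hZ
  have h2 := det_im_moeb hM hZ
  have hu := (isUnit_aut hM hZ).ne_zero
  have hp : 0 < ‖(aut M Z).det‖ := norm_pos_iff.mpr hu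
  have hd : 0 < (imM (moeb M Z)).det := (moeb_mem hM hZ).2.det_pos
  rw [h1, norm_mul, norm_zpow, ← h2, Real.mul_rpow hd.le (by positivity)]
  have h3 : (‖(aut M Z).det‖ ^ 2) ^ ((k : ℝ) / 2) = ‖(aut M Z).det‖ ^ k := by
    rw [← Real.rpow_natCast, ← Real.rpow_mul hp.le, ← Real.rpow_intCast]
    congr 1
    push_cast; ring
  rw [h3]; ring

lemma hn_nonneg {k : ℤ} {f : Matrix n n ℂ → ℂ} {Z : Matrix n n ℂ} (hZ : Z ∈ siegelH n) :
    0 ≤ hn k f Z := by
  unfold hn
  have : 0 < (imM Z).det := hZ.2.det_pos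
  positivity

end Run7.h433
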